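import Mathlib

set_option autoImplicit false

namespace Pool.Agent.Lib_caf75b

open Subgroup hiding commutator_def
open scoped commutatorElement

/-! ### Group theory -/

section GroupTheory

variable {G : Type*} [Group G]

theorem mem_comm (g h : G) : ⁅g, h⁆ ∈ _root_.commutator G := by
  rw [_root_.commutator_def]
  exact commutator_mem_commutator (mem_top g) (mem_top h)

theorem map_comm {H : Type*} [Group H] (f : G →* H) (hf : Function.Surjective f) :
    (_root_.commutator G).map f = _root_.commutator H := by
  rw [_root_.commutator_def, _root_.commutator_def, map_commutator, ← MonoidHom.range_eq_map,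
      MonoidHom.range_eq_top_of_surjective f hf]

/-- If `G` is generated by the conjugates of `t` and all commutators `[d, t]` with `d` in the
commutator subgroup lie in the normal subgroup `K`, then `G / K` is commutative. -/
theorem commutator_le_of_normalClosure (t : G) (ht : normalClosure ({t} : Set G) = ⊤)
    (K : Subgroup G) [K.Normal] (h : ∀ d ∈ _root_.commutator G, ⁅d, t⁆ ∈ K) :
    _root_.commutator G ≤ K := by
  have h1 : (⊤ : Subgroup G) ≤
      (centralizer ({(QuotientGroup.mk' K) t} : Set (G ⧸ K))).comap (QuotientGroup.mk' K) := by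
    rw [← ht, normalClosure, closure_le]
    intro x hx
    rw [Group.mem_conjugatesOfSet_iff] at hx
    obtain ⟨y, hy, hxy⟩ := hx
    rw [Set.mem_singleton_iff] at hy
    subst hy
    obtain ⟨g, rfl⟩ := isConj_iff.mp hxy
    have hd : ⁅g, y⁆ ∈ _root_.commutator G := by
      rw [commutator_def]
      exact commutator_mem_commutator (mem_top g) (mem_top y)
    have h2 : g * y * g⁻¹ = ⁅g, y⁆ * y := by
      rw [commutatorElement_def]; group
    have h3 := h _ hd
    rw [SetLike.mem_coe, mem_comap, mem_centralizer_singleton_iff, h2, map_mul]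
    have h4 : (QuotientGroup.mk' K) ⁅g, y⁆ * (QuotientGroup.mk' K) y =
        (QuotientGroup.mk' K) y * (QuotientGroup.mk' K) ⁅g, y⁆ := by
      have h5 : (QuotientGroup.mk' K) ⁅⁅g, y⁆, y⁆ = 1 := by
        rw [← MonoidHom.mem_ker, QuotientGroup.ker_mk']
        exact h3
      rw [map_commutatorElement] at h5
      exact commutatorElement_eq_one_iff_mul_comm.mp h5
    conv_lhs => rw [h4, mul_assoc]
  have h2 : (⊤ : Subgroup G) ≤ (center (G ⧸ K)).comap (QuotientGroup.mk' K) := by
    rw [← ht]
    apply normalClosure_le_normal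
    rw [Set.singleton_subset_iff, SetLike.mem_coe, mem_comap, mem_center_iff]
    intro g
    obtain ⟨g, rfl⟩ := QuotientGroup.mk'_surjective K g
    have := h1 (mem_top g)
    rw [mem_comap, mem_centralizer_singleton_iff] at this
    exact this
  rw [commutator_def, commutator_le]
  intro g _ k _
  rw [← QuotientGroup.ker_mk' K, MonoidHom.mem_ker, map_commutatorElement,
    commutatorElement_eq_one_iff_mul_comm]
  have := h2 (mem_top k)
  rw [mem_comap, mem_center_iff] at this
  exact this _

/-- Hall's estimate `[γ_{i+1}, Z_{i+1+j}] ≤ Z_j`. -/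
theorem lower_upper (i : ℕ) : ∀ j : ℕ,
    ⁅(⊤ : Subgroup G).lowerCentralSeries i, Subgroup.upperCentralSeries G (i + 1 + j)⁆ ≤
      Subgroup.upperCentralSeries G j := by
  induction i with
  | zero =>
    intro j
    rw [commutator_comm, Subgroup.lowerCentralSeries_zero]
    have := commutator_upperCentralSeries_top_le G j
    rw [zero_add, add_comm 1 j]
    exact this
  | succ i ih =>
    intro j
    set N := Subgroup.upperCentralSeries G j with hN
    set π := QuotientGroup.mk' N
    have key : ∀ H L : Subgroup G, ⁅H, L⁆ ≤ N ↔ ⁅H.map π, L.map π⁆ = ⊥ := by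
      intro H L
      rw [← map_commutator, Subgroup.map_eq_bot_iff, QuotientGroup.ker_mk']
    rw [Subgroup.lowerCentralSeries_succ, key, map_commutator]
    apply commutator_commutator_eq_bot_of_rotate
    · rw [← map_commutator, ← key]
      have h1 : ⁅(⊤ : Subgroup G), Subgroup.upperCentralSeries G (i + 1 + 1 + j)⁆ ≤
          Subgroup.upperCentralSeries G (i + 1 + j) := by
        rw [commutator_comm]
        have := commutator_upperCentralSeries_top_le G (i + 1 + j)
        rw [show i + 1 + 1 + j = i + 1 + j + 1 by ring]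
        exact this
      refine le_trans (commutator_mono h1 le_rfl) ?_
      rw [commutator_comm]
      exact ih j
    · rw [← map_commutator, ← key]
      have h1 := ih (j + 1)
      rw [commutator_comm] at h1
      rw [show i + 1 + 1 + j = i + 1 + (j + 1) by ring]
      exact le_trans (commutator_mono h1 le_rfl) (commutator_upperCentralSeries_top_le G j)

theorem lower_eq (t : G) (ht : normalClosure ({t} : Set G) = ⊤) (i : ℕ) :
    (⊤ : Subgroup G).lowerCentralSeries (i + 1) = _root_.commutator G := by
  have key : ⁅_root_.commutator G, (⊤ : Subgroup G)⁆ = _root_.commutator G := by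
    apply le_antisymm
    · exact commutator_le_left _ _
    · apply commutator_le_of_normalClosure t ht
      intro d hd
      exact commutator_mem_commutator hd (mem_top t)
  induction i with
  | zero => rfl
  | succ i ih => rw [Subgroup.lowerCentralSeries_succ, ih, key]

theorem commutator_upper (t : G) (ht : normalClosure ({t} : Set G) = ⊤) (n : ℕ) :
    ⁅_root_.commutator G, Subgroup.upperCentralSeries G n⁆ = ⊥ := by
  have h := lower_upper (G := G) (n + 1) 0
  rw [lower_eq t ht, Subgroup.upperCentralSeries_zero, le_bot_iff] at h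
  rw [← le_bot_iff, ← h]
  exact commutator_mono le_rfl (Subgroup.upperCentralSeries_mono G (by omega))

/-- In a finite metabelian group generated by the conjugates of `t`, the only element of the
commutator subgroup commuting with `t` is `1`. -/
theorem eq_one_of_commute [Finite G] (t : G) (ht : normalClosure ({t} : Set G) = ⊤)
    (hab : ∀ x ∈ _root_.commutator G, ∀ y ∈ _root_.commutator G, x * y = y * x)
    (x : G) (hx : x ∈ _root_.commutator G) (hxt : x * t = t * x) : x = 1 := by
  have hmem : ∀ g h : G, ⁅g, h⁆ ∈ _root_.commutator G := by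
    intro g h
    rw [_root_.commutator_def]
    exact commutator_mem_commutator (mem_top g) (mem_top h)
  let f : _root_.commutator G →* _root_.commutator G :=
    { toFun := fun d => ⟨⁅(d : G), t⁆, hmem _ _⟩
      map_one' := by
        apply Subtype.ext
        simp
      map_mul' := by
        intro a b
        apply Subtype.ext
        show ⁅(a : G) * b, t⁆ = ⁅(a : G), t⁆ * ⁅(b : G), t⁆
        have h1 : ⁅(a : G) * b, t⁆ = a * ⁅(b : G), t⁆ * (a : G)⁻¹ * ⁅(a : G), t⁆ := by
          simp only [commutatorElement_def]; group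
        rw [h1, hab a a.2 _ (hmem _ _), mul_inv_cancel_right, hab _ (hmem _ _) _ (hmem _ _)] }
  let W : Subgroup G := f.range.map (_root_.commutator G).subtype
  have hW : ∀ y : G, y ∈ W ↔ ∃ d ∈ _root_.commutator G, ⁅d, t⁆ = y := by
    intro y
    constructor
    · rintro ⟨_, ⟨d, rfl⟩, rfl⟩
      exact ⟨d, d.2, rfl⟩
    · rintro ⟨d, hd, rfl⟩
      exact ⟨f ⟨d, hd⟩, ⟨⟨d, hd⟩, rfl⟩, rfl⟩
  have hWn : W.Normal := by
    constructor
    intro y hy g
    rw [hW] at hy ⊢
    obtain ⟨d, hd, rfl⟩ := hy
    refine ⟨g * d * g⁻¹, (inferInstance : (_root_.commutator G).Normal).conj_mem d hd g, ?_⟩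
    have hd' : g * d * g⁻¹ ∈ _root_.commutator G :=
      (inferInstance : (_root_.commutator G).Normal).conj_mem d hd g
    have h1 : g * ⁅d, t⁆ * g⁻¹ = ⁅g * d * g⁻¹, ⁅g, t⁆ * t⁆ := by
      simp only [commutatorElement_def]; group
    rw [h1]
    have h2 : ⁅g * d * g⁻¹, ⁅g, t⁆ * t⁆ =
        ((g * d * g⁻¹) * ⁅g, t⁆) * t * (g * d * g⁻¹)⁻¹ * t⁻¹ * ⁅g, t⁆⁻¹ := by
      simp only [commutatorElement_def]; group
    rw [h2, hab _ hd' _ (hmem g t)]
    have h3 : ⁅g, t⁆ * (g * d * g⁻¹) * t * (g * d * g⁻¹)⁻¹ * t⁻¹ * ⁅g, t⁆⁻¹ =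
        (⁅g, t⁆ * ⁅g * d * g⁻¹, t⁆) * ⁅g, t⁆⁻¹ := by
      simp only [commutatorElement_def]; group
    rw [h3, hab _ (hmem g t) _ (hmem _ _), mul_inv_cancel_right]
  have hle : _root_.commutator G ≤ W := by
    apply commutator_le_of_normalClosure t ht
    intro d hd
    rw [hW]
    exact ⟨d, hd, rfl⟩
  have hsurj : Function.Surjective f := by
    intro y
    obtain ⟨d, hd, h⟩ := (hW y).mp (hle y.2)
    exact ⟨⟨d, hd⟩, Subtype.ext h⟩
  have hinj : Function.Injective f := Finite.injective_iff_surjective.mpr hsurj
  have h1 : f ⟨x, hx⟩ = f 1 := by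
    rw [map_one]
    apply Subtype.ext
    show ⁅x, t⁆ = 1
    rw [commutatorElement_eq_one_iff_mul_comm]
    exact hxt
  exact congrArg Subtype.val (hinj h1)

/-- In a finite group generated by the conjugates of `t`, hypercentral elements of the commutator
subgroup `D` lie in `[D, D]`. -/
theorem mem_second_derived [Finite G] (t : G) (ht : normalClosure ({t} : Set G) = ⊤) (n : ℕ)
    (x : G) (hx : x ∈ _root_.commutator G) (hx2 : x ∈ Subgroup.upperCentralSeries G n) :
    x ∈ ⁅_root_.commutator G, _root_.commutator G⁆ := by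
  set D2 := ⁅_root_.commutator G, _root_.commutator G⁆ with hD2
  let π := QuotientGroup.mk' D2
  have hπ : Function.Surjective π := QuotientGroup.mk'_surjective D2
  have ht' : normalClosure ({π t} : Set (G ⧸ D2)) = ⊤ := by
    have := map_normalClosure ({t} : Set G) π hπ
    rw [ht, Set.image_singleton, ← MonoidHom.range_eq_map, MonoidHom.range_eq_top_of_surjective π hπ] at this
    exact this.symm
  have hcomm : (_root_.commutator G).map π = _root_.commutator (G ⧸ D2) := map_comm π hπ
  have hab : ∀ x ∈ _root_.commutator (G ⧸ D2), ∀ y ∈ _root_.commutator (G ⧸ D2),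
      x * y = y * x := by
    intro x hx y hy
    rw [← hcomm] at hx hy
    obtain ⟨x, hx, rfl⟩ := hx
    obtain ⟨y, hy, rfl⟩ := hy
    rw [← commutatorElement_eq_one_iff_mul_comm, ← map_commutatorElement, ← MonoidHom.mem_ker,
      QuotientGroup.ker_mk']
    exact commutator_mem_commutator hx hy
  have key : ∀ n : ℕ, ∀ y ∈ _root_.commutator (G ⧸ D2),
      y ∈ Subgroup.upperCentralSeries (G ⧸ D2) n → y = 1 := by
    intro n
    induction n with
    | zero =>
      intro y _ hy
      simpa using hy
    | succ n ih =>
      intro y hy hy2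
      apply eq_one_of_commute (π t) ht' hab y hy
      rw [← commutatorElement_eq_one_iff_mul_comm]
      apply ih
      · exact mem_comm _ _
      · exact Subgroup.mem_upperCentralSeries_succ_iff.mp hy2 _
  have h1 : π x ∈ _root_.commutator (G ⧸ D2) := by
    rw [← hcomm]
    exact mem_map_of_mem π hx
  have h2 : π x ∈ Subgroup.upperCentralSeries (G ⧸ D2) n :=
    Subgroup.upperCentralSeries.map hπ n (mem_map_of_mem π hx2)
  have h3 := key n (π x) h1 h2
  rw [← MonoidHom.mem_ker, QuotientGroup.ker_mk'] at h3
  exact h3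

theorem card_commutatorSet_le (D : Type*) [Group D] [Finite D] :
    Nat.card (commutatorSet D) ≤ (center D).index ^ 2 := by
  have hf : Function.Surjective
      (fun p : (D ⧸ center D) × (D ⧸ center D) =>
        (⟨⁅p.1.out, p.2.out⁆, ⟨_, _, rfl⟩⟩ : commutatorSet D)) := by
    rintro ⟨_, g, h, rfl⟩
    refine ⟨((g : D ⧸ center D), (h : D ⧸ center D)), Subtype.ext ?_⟩
    obtain ⟨z, hz⟩ := QuotientGroup.mk_out_eq_mul (center D) g
    obtain ⟨w, hw⟩ := QuotientGroup.mk_out_eq_mul (center D) h
    show ⁅(g : D ⧸ center D).out, (h : D ⧸ center D).out⁆ = ⁅g, h⁆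
    rw [hz, hw]
    have hz' := fun a => mem_center_iff.mp z.2 a
    have hw' := fun a => mem_center_iff.mp w.2 a
    generalize (z : D) = z at hz' ⊢
    generalize (w : D) = w at hw' ⊢
    simp only [commutatorElement_def]
    calc g * z * (h * w) * (g * z)⁻¹ * (h * w)⁻¹
        = g * (z * (h * w) * z⁻¹) * g⁻¹ * w⁻¹ * h⁻¹ := by group
      _ = g * (h * w) * g⁻¹ * w⁻¹ * h⁻¹ := by rw [← hz' (h * w), mul_inv_cancel_right]
      _ = g * h * (w * g⁻¹) * w⁻¹ * h⁻¹ := by group
      _ = g * h * g⁻¹ * h⁻¹ := by rw [← hw' g⁻¹]; group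
  have h1 := Nat.card_le_card_of_surjective _ hf
  rw [Nat.card_prod] at h1
  rw [sq]
  exact h1

theorem card_commutator_le [Finite G] (t : G) (ht : normalClosure ({t} : Set G) = ⊤) (n : ℕ)
    (N : Subgroup G) [N.Normal] (hN : N ≤ Subgroup.upperCentralSeries G n) :
    Nat.card (_root_.commutator G) ≤ N.index ^ (N.index ^ 3 + 2) := by
  set D := _root_.commutator G with hD
  set M : Subgroup D := N.subgroupOf D with hM
  have hi : 1 ≤ N.index := Nat.one_le_iff_ne_zero.mpr FiniteIndex.index_ne_zero
  have hMc : M ≤ center D := by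
    intro x hx
    rw [mem_center_iff]
    intro y
    have h1 : (x : G) ∈ Subgroup.upperCentralSeries G n := hN hx
    have h2 : ⁅(y : G), (x : G)⁆ ∈ ⁅_root_.commutator G, Subgroup.upperCentralSeries G n⁆ :=
      commutator_mem_commutator y.2 h1
    rw [commutator_upper t ht n, mem_bot, commutatorElement_eq_one_iff_mul_comm] at h2
    exact Subtype.ext h2
  have hM2 : M ≤ _root_.commutator D := by
    intro x hx
    have h1 : (x : G) ∈ Subgroup.upperCentralSeries G n := hN hx
    have h2 := mem_second_derived t ht n x x.2 h1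
    have h3 : (_root_.commutator D).map D.subtype = ⁅D, D⁆ := by
      rw [_root_.commutator_def, map_commutator, ← MonoidHom.range_eq_map, range_subtype]
    rw [← hD, ← h3] at h2
    obtain ⟨y, hy, hyx⟩ := h2
    have : y = x := Subtype.ext hyx
    rwa [← this]
  have hMi : M.index ≤ N.index := by
    have h1 : M.index ∣ N.index := relIndex_dvd_index_of_normal N D
    exact Nat.le_of_dvd hi h1
  have hci : (center D).index ≤ N.index := by
    refine le_trans ?_ hMi
    exact Nat.le_of_dvd (Nat.pos_of_ne_zero FiniteIndex.index_ne_zero) (index_dvd_of_le hMc)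
  have hc1 : 1 ≤ (center D).index := Nat.one_le_iff_ne_zero.mpr FiniteIndex.index_ne_zero
  have hcard := card_commutator_dvd_index_center_pow D
  have hcard2 := Nat.le_of_dvd (pow_pos hc1 _) hcard
  have hset := card_commutatorSet_le D
  have hMcard : Nat.card M ≤ N.index ^ (N.index ^ 3 + 1) := by
    calc Nat.card M ≤ Nat.card (_root_.commutator D) := card_le_of_le hM2
      _ ≤ (center D).index ^ ((center D).index * Nat.card (commutatorSet D) + 1) := hcard2
      _ ≤ (center D).index ^ (N.index ^ 3 + 1) := by
          apply Nat.pow_le_pow_right hc1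
          have : (center D).index * Nat.card (commutatorSet D) ≤ N.index ^ 3 := by
            calc (center D).index * Nat.card (commutatorSet D)
                ≤ (center D).index * (center D).index ^ 2 := Nat.mul_le_mul_left _ hset
              _ = (center D).index ^ 3 := by ring
              _ ≤ N.index ^ 3 := Nat.pow_le_pow_left hci 3
          omega
      _ ≤ N.index ^ (N.index ^ 3 + 1) := Nat.pow_le_pow_left hci _
  calc Nat.card D = Nat.card M * M.index := (card_mul_index M).symm
    _ ≤ N.index ^ (N.index ^ 3 + 1) * N.index := Nat.mul_le_mul hMcard hMi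
    _ = N.index ^ (N.index ^ 3 + 2) := by ring

end GroupTheory

end Pool.Agent.Lib_caf75b
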